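import Mathlib
import Pool.Agent.Q264.SlowWalk

namespace Pool.Agent.Results.MP_1596c6_nt.Disproof

open Q264.SlowWalk

/-- Let `T = {(33, 784), (773, 263424)}` and `(α, β) = (773, 263424)`. Both pairs are relatively
prime, `γ_{33,784} = 49 = Γ_T`, `γ_{773,263424} = 1029 < 49 ^ 2`, so `(α, β) ∈ R_T'`; but for every
`t ≥ 10` the pair `(α, β)` does not belong to `S_T(g_t + β g_{t-1})`, because the other pair
reaches this integer at index `t + 2` while `(α, β)` reaches it at index `t + 1` at the latest.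
In particular only finitely many `t ≥ 2` are good. -/
theorem result :
    ∃ T : Set (ℕ × ℕ), T.Nonempty ∧ (∀ p ∈ T, 1 ≤ p.1 ∧ 1 ≤ p.2 ∧ Nat.Coprime p.1 p.2) ∧
      ∃ α β : ℕ, (α, β) ∈ RT T ∧
        (∀ t : ℕ, 10 ≤ t → (α, β) ∉ ST T (g α β t + β * g α β (t - 1))) ∧
        {t : ℕ | 2 ≤ t ∧ (α, β) ∈ ST T (g α β t + β * g α β (t - 1))}.Finite := by
  have key : ∀ t : ℕ, 10 ≤ t → ((773, 263424) : ℕ × ℕ) ∉
      ST {(33, 784), (773, 263424)} (g 773 263424 t + 263424 * g 773 263424 (t - 1)) := by
    intro t ht hmem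
    have h1 := hmem.2 (33, 784) (by simp)
    have h2 := slow_le 773 263424 (by norm_num) (by norm_num) t (by omega)
    have h3 := mem_hits t ht
    have hb : BddAbove (hits (33, 784)
        (g 773 263424 t + 263424 * g 773 263424 (t - 1))) :=
      ⟨_, fun s hs => hits_bdd (33, 784) (by norm_num) (by norm_num) _ s hs⟩
    have h4 : t + 2 ≤ slow (33, 784) (g 773 263424 t + 263424 * g 773 263424 (t - 1)) :=
      le_csSup hb h3
    omega
  refine ⟨{(33, 784), (773, 263424)}, ⟨(33, 784), by simp⟩, ?_, 773, 263424, ?_, key, ?_⟩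
  · intro p hp
    rcases hp with rfl | hp
    · exact ⟨by norm_num, by norm_num, by norm_num⟩
    · rw [Set.mem_singleton_iff] at hp
      subst hp
      exact ⟨by norm_num, by norm_num, by norm_num⟩
  · refine ⟨by simp, ?_⟩
    rw [Gam_pair, gam_big]
    norm_num
  · apply Set.Finite.subset (Set.finite_Iio 10)
    intro t ht
    by_contra h
    exact key t (by simpa using h) ht.2

end Pool.Agent.Results.MP_1596c6_nt.Disproof
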